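import Pool.Agent.W941.MG.Stm

set_option autoImplicit false

namespace Pool.Agent.W52.MG

open MvPolynomial Pool.Agent.W941.MG

/-- equivariance of a list -/
def Eqv {n : ℕ} (l : List (Fin n → MvPolynomial (Fin n × Fin n) ℂ)) : Prop :=
  ∀ (t : ℕ) (π : Equiv.Perm (Fin n)) (i : Fin n),
      rename (fun p => (π p.1, p.2)) (l.getD t 0 i) = l.getD t 0 (π i)

theorem eqv_step {n : ℕ} (l : List (Fin n → MvPolynomial (Fin n × Fin n) ℂ))
    (w : Fin n → MvPolynomial (Fin n × Fin n) ℂ) (ih : Eqv l)
    (hw : ∀ (π : Equiv.Perm (Fin n)) (i : Fin n), rename (fun p => (π p.1, p.2)) (w i) = w (π i)) :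
    Eqv (l ++ [w]) := by
  have h1 : ∀ t < l.length, (l ++ [w]).getD t 0 = l.getD t 0 := fun t ht =>
    List.getD_append _ _ _ _ ht
  have h2 : (l ++ [w]).getD l.length 0 = w := by
    rw [List.getD_append_right _ _ _ _ le_rfl, Nat.sub_self]
    rfl
  have h3 : ∀ t, l.length < t → (l ++ [w]).getD t 0 = 0 := by
    intro t ht
    apply List.getD_eq_default
    rw [List.length_append, List.length_singleton]
    omega
  intro t π i
  rcases lt_trichotomy t l.length with h | h | h
  · rw [h1 t h]; exact ih t π i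
  · rw [h, h2]; exact hw π i
  · rw [h3 t h]
    show rename _ (0 : MvPolynomial (Fin n × Fin n) ℂ) = 0
    rw [map_zero]

theorem view_ren {n d : ℕ} (l : List (Fin n → MvPolynomial (Fin n × Fin n) ℂ)) (ih : Eqv l)
    (π : Equiv.Perm (Fin n)) (ρ : Fin d → Fin n) (q : MvPolynomial (Fin d × (Fin n ⊕ ℕ)) ℂ) :
    rename (fun p => (π p.1, p.2))
      (aeval (view (fun i c => (X (i, c) : MvPolynomial (Fin n × Fin n) ℂ))
        (fun t => l.getD t 0) ρ) q) =
      aeval (view (fun i c => (X (i, c) : MvPolynomial (Fin n × Fin n) ℂ))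
        (fun t => l.getD t 0) (fun a => π (ρ a))) q := by
  rw [comp_aeval_apply]
  congr 2
  funext v
  rcases v with ⟨a, c | t⟩
  · show rename (fun p => (π p.1, p.2)) (X (ρ a, c) : MvPolynomial (Fin n × Fin n) ℂ) = X (π (ρ a), c)
    rw [rename_X]
  · show rename (fun p => (π p.1, p.2)) (l.getD t 0 (ρ a)) = l.getD t 0 (π (ρ a))
    exact ih t π (ρ a)

theorem eqv : EqvStmt := by
  intro n k l hl
  show Eqv l
  induction hl with
  | nil =>
    intro t π i
    show rename _ (0 : MvPolynomial (Fin n × Fin n) ℂ) = 0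
    rw [map_zero]
  | sum l q hl ih =>
    apply eqv_step l _ ih
    intro π i
    rw [map_sum]
    have h1 : ∀ τ : Fin k → Fin n, rename (fun p => (π p.1, p.2))
        (aeval (view (fun i c => (X (i, c) : MvPolynomial (Fin n × Fin n) ℂ))
          (fun t => l.getD t 0) (rows i τ)) q) =
        aeval (view (fun i c => (X (i, c) : MvPolynomial (Fin n × Fin n) ℂ))
          (fun t => l.getD t 0) (rows (π i) ((Equiv.piCongrRight (fun _ : Fin k => π)) τ))) q := by
      intro τ
      rw [view_ren l ih π (rows i τ) q]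
      have h2 : (fun a => π (rows i τ a)) = rows (π i) ((Equiv.piCongrRight (fun _ : Fin k => π)) τ) := by
        funext a
        refine Fin.cases ?_ (fun j => ?_) a
        · rfl
        · rfl
      rw [h2]
    rw [Finset.sum_congr rfl fun τ _ => h1 τ]
    exact Equiv.sum_comp (Equiv.piCongrRight (fun _ : Fin k => π))
      (fun τ => aeval (view (fun i c => (X (i, c) : MvPolynomial (Fin n × Fin n) ℂ))
          (fun t => l.getD t 0) (rows (π i) τ)) q)
  | prod l q hl ih =>
    apply eqv_step l _ ih
    intro π i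
    rw [map_prod]
    have h1 : ∀ i' : Fin n, rename (fun p => (π p.1, p.2))
        (aeval (view (fun i c => (X (i, c) : MvPolynomial (Fin n × Fin n) ℂ))
          (fun t => l.getD t 0) ![i, i']) q) =
        aeval (view (fun i c => (X (i, c) : MvPolynomial (Fin n × Fin n) ℂ))
          (fun t => l.getD t 0) ![π i, π i']) q := by
      intro i'
      rw [view_ren l ih π ![i, i'] q]
      have h2 : (fun a => π (![i, i'] a)) = ![π i, π i'] := by
        funext a
        fin_cases a
        · rfl
        · rfl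
      rw [h2]
    rw [Finset.prod_congr rfl fun i' _ => h1 i']
    exact Equiv.prod_comp π
      (fun i' => aeval (view (fun i c => (X (i, c) : MvPolynomial (Fin n × Fin n) ℂ))
          (fun t => l.getD t 0) ![π i, i']) q)

end Pool.Agent.W52.MG
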