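import Pool.Agent.W941.MG.Stm

set_option autoImplicit false

namespace Pool.Agent.W52.MG

open Pool.Agent.W941.MG

theorem ind_mul {b n : ℕ} {N : Type} (A : Fin b → N → Finset (Fin n))
    (S S' : Fin b → Finset (Fin n)) : ind A S * ind A S' = ind A (fun j => S j ∪ S' j) := by
  funext x
  show ind A S x * ind A S' x = ind A (fun j => S j ∪ S' j) x
  unfold ind
  have h : (∀ j, S j ∪ S' j ⊆ A j (x j)) ↔ (∀ j, S j ⊆ A j (x j)) ∧ ∀ j, S' j ⊆ A j (x j) := by
    constructor
    · intro h
      exact ⟨fun j => (Finset.union_subset_iff.mp (h j)).1, fun j => (Finset.union_subset_iff.mp (h j)).2⟩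
    · intro h j
      exact Finset.union_subset (h.1 j) (h.2 j)
  by_cases h1 : ∀ j, S j ⊆ A j (x j)
  · by_cases h2 : ∀ j, S' j ⊆ A j (x j)
    · rw [if_pos h1, if_pos h2, if_pos (h.mpr ⟨h1, h2⟩), one_mul]
    · rw [if_neg h2, if_neg (fun h3 => h2 (h.mp h3).2), mul_zero]
  · rw [if_neg h1, if_neg (fun h3 => h1 (h.mp h3).1), zero_mul]

theorem fl : FlStmt := by
  intro b n N A a a' F G hF hG
  unfold Fl at *
  induction hF using Submodule.span_induction with
  | mem F hF =>
    obtain ⟨S, hS, rfl⟩ := hF
    induction hG using Submodule.span_induction with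
    | mem G hG =>
      obtain ⟨S', hS', rfl⟩ := hG
      apply Submodule.subset_span
      refine ⟨fun j => S j ∪ S' j, fun j => ?_, ind_mul A S S'⟩
      exact (Finset.card_union_le _ _).trans (add_le_add (hS j) (hS' j))
    | zero => rw [mul_zero]; exact zero_mem _
    | add x y _ _ hx hy => rw [mul_add]; exact add_mem hx hy
    | smul c x _ hx => rw [mul_smul_comm]; exact Submodule.smul_mem _ c hx
  | zero => rw [zero_mul]; exact zero_mem _
  | add x y _ _ hx hy => rw [add_mul]; exact add_mem hx hy
  | smul c x _ hx => rw [smul_mul_assoc]; exact Submodule.smul_mem _ c hx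

end Pool.Agent.W52.MG
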